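import Mathlib
import Pool.Agent.TH74.Oligo.Pres

set_option autoImplicit false

namespace Pool.Agent.H851.Oligo

open Pool.Agent.TH74.Oligo

/-- letters `(j, x)`: the `j`-th generator of the copy at `x` -/
def LY (n : ℕ) (X : Type) : Type := Fin n × X

instance instLY (n : ℕ) {Γ X : Type} [Group Γ] [MulAction Γ X] : MulAction Γ (LY n X) where
  smul g y := (y.1, g • y.2)
  one_smul y := by
    change (y.1, (1 : Γ) • y.2) = y
    rw [one_smul]
    rfl
  mul_smul g h y := by
    change (y.1, (g * h) • y.2) = (y.1, g • h • y.2)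
    rw [mul_smul]

/-- the letter `(j, x)` -/
def lt {n : ℕ} {X : Type} (j : Fin n) (x : X) : LY n X := (j, x)

theorem smul_LY {n : ℕ} {Γ X : Type} [Group Γ] [MulAction Γ X] (g : Γ) (j : Fin n) (x : X) :
    g • lt j x = lt j (g • x) := rfl

section beta
variable {A S X : Type} [Group A] [MulAction A S] [DecidableEq X]

/-- the action of `A` on `S × {x}` -/
def beta (x : X) : A →* Equiv.Perm (S × X) where
  toFun h :=
    { toFun := fun p => if p.2 = x then (h • p.1, p.2) else p
      invFun := fun p => if p.2 = x then (h⁻¹ • p.1, p.2) else p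
      left_inv := by
        rintro ⟨s, y⟩
        by_cases hy : y = x <;> simp [hy]
      right_inv := by
        rintro ⟨s, y⟩
        by_cases hy : y = x <;> simp [hy] }
  map_one' := by
    ext1 ⟨s, y⟩
    by_cases hy : y = x <;> simp [hy]
  map_mul' h k := by
    ext1 ⟨s, y⟩
    by_cases hy : y = x <;> simp [hy, mul_smul]

theorem beta_apply (x : X) (h : A) (s : S) (y : X) :
    beta x h (s, y) = if y = x then (h • s, y) else (s, y) := rfl

theorem beta_same (x : X) (h : A) (s : S) : beta x h (s, x) = (h • s, x) := by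
  rw [beta_apply, if_pos rfl]

theorem beta_ne (x : X) (h : A) (s : S) {y : X} (hy : y ≠ x) : beta x h (s, y) = (s, y) := by
  rw [beta_apply, if_neg hy]

theorem beta_comm {x y : X} (hxy : x ≠ y) (h k : A) :
    Commute (beta (S := S) x h) (beta y k) := by
  apply Equiv.ext
  rintro ⟨s, z⟩
  rw [Equiv.Perm.mul_apply, Equiv.Perm.mul_apply]
  by_cases hx : z = x
  · subst hx
    rw [beta_ne y k s hxy, beta_same, beta_ne y k _ hxy]
  · by_cases hy : z = y
    · subst hy
      rw [beta_same, beta_ne x h _ hx, beta_ne x h _ hx, beta_same]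
    · rw [beta_ne y k s hy, beta_ne x h _ hx, beta_ne y k s hy]

/-- the action on the second coordinate -/
def iota {Γ : Type} [Group Γ] [MulAction Γ X] : Γ →* Equiv.Perm (S × X) where
  toFun g := Equiv.prodCongr (Equiv.refl S) (MulAction.toPerm g)
  map_one' := by
    ext1 ⟨s, y⟩
    simp
  map_mul' g h := by
    ext1 ⟨s, y⟩
    simp [mul_smul]

omit [DecidableEq X] in
theorem iota_apply {Γ : Type} [Group Γ] [MulAction Γ X] (g : Γ) (s : S) (x : X) :
    iota g (s, x) = (s, g • x) := rfl

theorem iota_conj {Γ : Type} [Group Γ] [MulAction Γ X] (g : Γ) (x : X) (h : A) :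
    iota (S := S) g * beta x h * (iota g)⁻¹ = beta (g • x) h := by
  apply Equiv.ext
  rintro ⟨s, y⟩
  have h0 : iota (S := S) (g⁻¹ : Γ) (s, y) = (s, g⁻¹ • y) := rfl
  rw [← map_inv, Equiv.Perm.mul_apply, Equiv.Perm.mul_apply, h0]
  by_cases hy : y = g • x
  · subst hy
    rw [inv_smul_smul, beta_same, beta_same, iota_apply]
  · have : g⁻¹ • y ≠ x := by
      intro h'
      apply hy
      rw [← h', smul_inv_smul]
    rw [beta_ne _ _ _ this, beta_ne _ _ _ hy, iota_apply, smul_inv_smul]

end beta

theorem wreathFP {A Γ S X : Type} [Group A] [Group Γ] [MulAction A S] [MulAction Γ X]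
    [DecidableEq X]
    [Group.IsFinitelyPresented A] [Group.IsFinitelyPresented Γ]
    (E : Finset (X × X)) (hE : ∀ x y : X, ∃ g : Γ, ∃ p ∈ E, g • p.1 = x ∧ g • p.2 = y)
    (hst : ∀ x : X, (MulAction.stabilizer Γ x).FG) :
    ∃ (Q : Type) (_ : Group Q) (i : Γ →* Q) (α : X → A →* Q) (π : Q →* Equiv.Perm (S × X)),
      Group.IsFinitelyPresented Q ∧
      (∀ g x h, i g * α x h * (i g)⁻¹ = α (g • x) h) ∧
      (∀ x y, x ≠ y → ∀ h k, Commute (α x h) (α y k)) ∧
      (Subgroup.closure (Set.range i ∪ {q | ∃ x h, q = α x h}) = ⊤) ∧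
      (∀ g, π (i g) = iota g) ∧
      (∀ x h, π (α x h) = beta x h) := by
  classical
  obtain ⟨n, rel, hrel, ⟨θ⟩⟩ :=
    Group.IsFinitelyPresented.exists_mulEquiv_presentedGroup (G := A)
  -- finitely many orbits on the letters
  have hfin : Finite (MulAction.orbitRel.Quotient Γ (LY n X)) := by
    let f : Fin n × E → MulAction.orbitRel.Quotient Γ (LY n X) := fun o =>
      Quotient.mk _ (lt o.1 o.2.1.1)
    apply Finite.of_surjective f
    intro q
    induction q using Quotient.inductionOn with
    | h y =>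
      obtain ⟨j, x⟩ := y
      obtain ⟨g, p, hp, h1, -⟩ := hE x x
      refine ⟨(j, ⟨p, hp⟩), ?_⟩
      apply Quotient.sound
      refine ⟨g⁻¹, ?_⟩
      change g⁻¹ • (lt j x) = lt j p.1
      rw [smul_LY, ← h1, inv_smul_smul]
  have hstO : ∀ y : LY n X, (MulAction.stabilizer Γ y).FG := by
    rintro ⟨j, x⟩
    have : MulAction.stabilizer Γ (lt j x) = MulAction.stabilizer Γ x := by
      ext g
      rw [MulAction.mem_stabilizer_iff, MulAction.mem_stabilizer_iff, smul_LY]
      constructor
      · intro h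
        exact (Prod.mk.inj h).2
      · intro h
        rw [h]
    change (MulAction.stabilizer Γ (lt j x)).FG
    rw [this]
    exact hst x
  let L : Fin n → X → FreeGroup (LY n X) := fun j x => FreeGroup.of (lt j x)
  let W1 : Set (FreeGroup (LY n X)) := ⋃ p ∈ E,
    (fun r : FreeGroup (Fin n) => FreeGroup.lift (fun j => L j p.1) r) '' rel
  let W2 : Set (FreeGroup (LY n X)) := ⋃ p ∈ E,
    {w | p.1 ≠ p.2 ∧ ∃ jk : Fin n × Fin n,
      L jk.1 p.1 * L jk.2 p.2 * (L jk.1 p.1)⁻¹ * (L jk.2 p.2)⁻¹ = w}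
  have hW1 : W1.Finite := Set.Finite.biUnion E.finite_toSet fun p _ => hrel.image _
  have hW2 : W2.Finite := by
    apply Set.Finite.biUnion E.finite_toSet
    intro p _
    apply (Set.finite_range (fun jk : Fin n × Fin n =>
      L jk.1 p.1 * L jk.2 p.2 * (L jk.1 p.1)⁻¹ * (L jk.2 p.2)⁻¹)).subset
    rintro w ⟨-, jk, hjk⟩
    exact ⟨jk, hjk⟩
  obtain ⟨Q, _, i, a, hfp, hia, hWa, hgen, huniv⟩ := relPres hstO (W1 ∪ W2) (hW1.union hW2)
  let a2 : Fin n → X → Q := fun j x => a (lt j x)
  have hia2 : ∀ g j x, MulAut.conj (i g) (a2 j x) = a2 j (g • x) := fun g j x => hia g (lt j x)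
  have hlift : ∀ x (r : FreeGroup (Fin n)), FreeGroup.lift a (FreeGroup.lift (fun j => L j x) r) =
      FreeGroup.lift (fun j => a2 j x) r := by
    intro x r
    have : (FreeGroup.lift a).comp (FreeGroup.lift (fun j => L j x)) =
        FreeGroup.lift (fun j => a2 j x) := by
      ext j
      simp [L, a2]
    rw [← this]
    rfl
  have hconj : ∀ g x (r : FreeGroup (Fin n)), MulAut.conj (i g) (FreeGroup.lift (fun j => a2 j x) r)
      = FreeGroup.lift (fun j => a2 j (g • x)) r := by
    intro g x r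
    have : (MulAut.conj (i g)).toMonoidHom.comp (FreeGroup.lift (fun j => a2 j x)) =
        FreeGroup.lift (fun j => a2 j (g • x)) := by
      ext j
      simp only [MonoidHom.comp_apply, FreeGroup.lift_apply_of]
      exact hia2 g j x
    rw [← this]
    rfl
  have hrelx : ∀ x, ∀ r ∈ rel, FreeGroup.lift (fun j => a2 j x) r = 1 := by
    intro x r hr
    obtain ⟨g, p, hp, rfl, -⟩ := hE x x
    rw [← hconj, ← hlift, hWa _ (Or.inl (Set.mem_iUnion₂.2 ⟨p, hp, r, hr, rfl⟩)), map_one]
  have hcomm2 : ∀ x y, x ≠ y → ∀ j k, Commute (a2 j x) (a2 k y) := by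
    intro x y hxy j k
    obtain ⟨g, p, hp, rfl, rfl⟩ := hE x y
    have hne : p.1 ≠ p.2 := fun h => hxy (by rw [h])
    have h1 := hWa _ (Or.inr (Set.mem_iUnion₂.2 ⟨p, hp, hne, (j, k), rfl⟩))
    simp only [map_mul, map_inv] at h1
    have h2 : FreeGroup.lift a (L j p.1) = a2 j p.1 := FreeGroup.lift_apply_of
    have h3 : FreeGroup.lift a (L k p.2) = a2 k p.2 := FreeGroup.lift_apply_of
    rw [h2, h3, mul_inv_eq_one, mul_inv_eq_iff_eq_mul] at h1
    rw [← hia2, ← hia2]
    have h4 : Commute (a2 j p.1) (a2 k p.2) := h1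
    exact h4.map (MulAut.conj (i g)).toMonoidHom
  have hcommw : ∀ (q : Q) (x : X), (∀ j, Commute (a2 j x) q) → ∀ w : FreeGroup (Fin n),
      Commute (FreeGroup.lift (fun j => a2 j x) w) q := by
    intro q x hq w
    induction w using FreeGroup.induction_on with
    | C1 => rw [map_one]; exact Commute.one_left _
    | of j => rw [FreeGroup.lift_apply_of]; exact hq j
    | inv_of j h => rw [map_inv]; exact h.inv_left
    | mul u v hu hv => rw [map_mul]; exact hu.mul_left hv
  let α' : X → PresentedGroup rel →* Q := fun x => PresentedGroup.toGroup (hrelx x)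
  have hα' : ∀ x w, α' x (PresentedGroup.mk rel w) = FreeGroup.lift (fun j => a2 j x) w := by
    intro x w
    rfl
  let α : X → A →* Q := fun x => (α' x).comp θ.toMonoidHom
  have hα : ∀ h : A, ∃ w, θ h = PresentedGroup.mk rel w ∧
      ∀ y, α y h = FreeGroup.lift (fun j => a2 j y) w := by
    intro h
    obtain ⟨w, hw⟩ := PresentedGroup.mk_surjective rel (θ h)
    refine ⟨w, hw.symm, fun y => ?_⟩
    change α' y (θ h) = _
    rw [← hw, hα']
  -- the homomorphism to the permutations
  obtain ⟨π, hπi, hπa⟩ := huniv (Equiv.Perm (S × X)) iota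
    (fun y => beta y.2 (θ.symm (PresentedGroup.of y.1)))
    (by
      rintro g ⟨j, x⟩
      exact iota_conj g x _)
    (by
      rintro w (hw | hw)
      · obtain ⟨p, hp, r, hr, rfl⟩ := Set.mem_iUnion₂.1 hw
        have : (FreeGroup.lift (fun y : LY n X => (beta y.2 (θ.symm (PresentedGroup.of y.1)) :
            Equiv.Perm (S × X)))).comp (FreeGroup.lift (fun j => L j p.1)) =
            ((beta p.1).comp θ.symm.toMonoidHom).comp (PresentedGroup.mk rel) := by
          ext1 j
          simp only [MonoidHom.comp_apply, FreeGroup.lift_apply_of, L]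
          rfl
        change ((FreeGroup.lift (fun y : LY n X => (beta y.2 (θ.symm (PresentedGroup.of y.1)) :
            Equiv.Perm (S × X)))).comp (FreeGroup.lift (fun j => L j p.1))) r = 1
        rw [this]
        have h1 : PresentedGroup.mk rel r = 1 :=
          (PresentedGroup.mk_eq_one_iff).2 (Subgroup.subset_normalClosure hr)
        rw [MonoidHom.comp_apply, h1, map_one]
      · obtain ⟨p, hp, hne, jk, rfl⟩ := Set.mem_iUnion₂.1 hw
        simp only [map_mul, map_inv, L, FreeGroup.lift_apply_of]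
        rw [mul_inv_eq_one, mul_inv_eq_iff_eq_mul]
        exact beta_comm hne _ _)
  refine ⟨Q, inferInstance, i, α, π, hfp, ?_, ?_, ?_, hπi, ?_⟩
  · intro g x h
    obtain ⟨w, -, hw⟩ := hα h
    rw [hw, hw, ← hconj]
    rfl
  · intro x y hxy h k
    obtain ⟨w, -, hw⟩ := hα h
    obtain ⟨v, -, hv⟩ := hα k
    rw [hw, hv]
    apply hcommw
    intro j
    apply Commute.symm
    apply hcommw
    intro j'
    exact hcomm2 y x hxy.symm _ _
  · rw [eq_top_iff, ← hgen, Subgroup.closure_le]
    rintro q (hq | ⟨⟨j, x⟩, rfl⟩)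
    · exact Subgroup.subset_closure (Or.inl hq)
    · apply Subgroup.subset_closure
      right
      refine ⟨x, θ.symm (PresentedGroup.of j), ?_⟩
      change _ = α' x (θ (θ.symm (PresentedGroup.of j)))
      rw [MulEquiv.apply_symm_apply]
      change _ = α' x (PresentedGroup.mk rel (FreeGroup.of j))
      rw [hα', FreeGroup.lift_apply_of]
      rfl
  · intro x h
    obtain ⟨w, hθ, hw⟩ := hα h
    rw [hw]
    have : π.comp (FreeGroup.lift (fun j => a2 j x)) =
        ((beta x).comp θ.symm.toMonoidHom).comp (PresentedGroup.mk rel) := by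
      ext1 j
      simp only [MonoidHom.comp_apply, FreeGroup.lift_apply_of, a2]
      exact hπa (lt j x)
    change (π.comp (FreeGroup.lift (fun j => a2 j x))) w = _
    rw [this]
    change beta x (θ.symm (PresentedGroup.mk rel w)) = _
    rw [← hθ, MulEquiv.symm_apply_apply]

end Pool.Agent.H851.Oligo
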