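import Mathlib
import Pool.Agent.H851.Oligo.Wreath

set_option autoImplicit false

namespace Pool.Agent.H851.Oligo

section
variable {A Γ S X Q : Type} [Group A] [Group Γ] [Group Q] [MulAction A S] [MulAction Γ X]
  [DecidableEq X] (i : Γ →* Q) (α : X → A →* Q) (π : Q →* Equiv.Perm (S × X))

/-- the subgroup generated by the copies at the points of `F` -/
def RF (F : Finset X) : Subgroup Q := Subgroup.closure {q | ∃ x ∈ F, ∃ h, q = α x h}

omit [DecidableEq X] in
theorem RF_mono {F F' : Finset X} (hF : F ⊆ F') : RF α F ≤ RF α F' := by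
  apply Subgroup.closure_mono
  rintro q ⟨x, hx, h, rfl⟩
  exact ⟨x, hF hx, h, rfl⟩

omit [DecidableEq X] in
theorem RF_mem {F : Finset X} {x : X} (hx : x ∈ F) (h : A) : α x h ∈ RF α F :=
  Subgroup.subset_closure ⟨x, hx, h, rfl⟩

omit [DecidableEq X] in
theorem RF_comm (h2 : ∀ x y, x ≠ y → ∀ h k, Commute (α x h) (α y k)) {F : Finset X} {x : X}
    (hx : x ∉ F) (h : A) {m : Q} (hm : m ∈ RF α F) : Commute (α x h) m := by
  induction hm using Subgroup.closure_induction with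
  | mem m hm =>
    obtain ⟨y, hy, k, rfl⟩ := hm
    exact h2 x y (fun hxy => hx (hxy ▸ hy)) h k
  | one => exact Commute.one_right _
  | mul u v _ _ hu hv => exact hu.mul_right hv
  | inv u _ hu => exact hu.inv_right

theorem RF_act (h5 : ∀ x h, π (α x h) = beta x h) {F : Finset X} {y : X}
    (hy : y ∉ F) {m : Q} (hm : m ∈ RF α F) (s : S) : π m (s, y) = (s, y) := by
  induction hm using Subgroup.closure_induction with
  | mem m hm =>
    obtain ⟨x, hx, k, rfl⟩ := hm
    rw [h5]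
    exact beta_ne x k s (fun hxy => hy (hxy ▸ hx))
  | one => rw [map_one]; rfl
  | mul u v _ _ hu hv => rw [map_mul, Equiv.Perm.mul_apply, hv, hu]
  | inv u _ hu => rw [map_inv, Equiv.Perm.inv_eq_iff_eq, hu]

theorem RF_dec (h2 : ∀ x y, x ≠ y → ∀ h k, Commute (α x h) (α y k)) {F : Finset X} {x : X}
    (hx : x ∉ F) {n : Q} (hn : n ∈ RF α (insert x F)) : ∃ h, ∃ m ∈ RF α F, n = α x h * m := by
  induction hn using Subgroup.closure_induction with
  | mem m hm =>
    obtain ⟨y, hy, k, rfl⟩ := hm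
    rw [Finset.mem_insert] at hy
    rcases hy with rfl | hy
    · exact ⟨k, 1, one_mem _, by rw [mul_one]⟩
    · exact ⟨1, α y k, RF_mem α hy k, by rw [map_one, one_mul]⟩
  | one => exact ⟨1, 1, one_mem _, by rw [map_one, one_mul]⟩
  | mul u v _ _ hu hv =>
    obtain ⟨h, m, hm, rfl⟩ := hu
    obtain ⟨k, l, hl, rfl⟩ := hv
    refine ⟨h * k, m * l, mul_mem hm hl, ?_⟩
    have h1 : α x k * m = m * α x k := RF_comm α h2 hx k hm
    rw [map_mul]
    calc α x h * m * (α x k * l) = α x h * (m * α x k) * l := by group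
      _ = α x h * (α x k * m) * l := by rw [h1]
      _ = α x h * α x k * (m * l) := by group
  | inv u _ hu =>
    obtain ⟨h, m, hm, rfl⟩ := hu
    refine ⟨h⁻¹, m⁻¹, inv_mem hm, ?_⟩
    have h1 : α x h⁻¹ * m⁻¹ = m⁻¹ * α x h⁻¹ := RF_comm α h2 hx h⁻¹ (inv_mem hm)
    rw [h1, mul_inv_rev, map_inv]

theorem mem_RF {n : Q} (hn : n ∈ Subgroup.closure {q | ∃ x h, q = α x h}) :
    ∃ F, n ∈ RF α F := by
  induction hn using Subgroup.closure_induction with
  | mem m hm =>
    obtain ⟨y, k, rfl⟩ := hm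
    exact ⟨{y}, RF_mem α (Finset.mem_singleton_self y) k⟩
  | one => exact ⟨∅, one_mem _⟩
  | mul u v _ _ hu hv =>
    obtain ⟨F, hF⟩ := hu
    obtain ⟨F', hF'⟩ := hv
    exact ⟨F ∪ F', mul_mem (RF_mono α Finset.subset_union_left hF)
      (RF_mono α Finset.subset_union_right hF')⟩
  | inv u _ hu =>
    obtain ⟨F, hF⟩ := hu
    exact ⟨F, inv_mem hF⟩

theorem decomp (h1 : ∀ g x h, i g * α x h * (i g)⁻¹ = α (g • x) h)
    (h3 : Subgroup.closure (Set.range i ∪ {q | ∃ x h, q = α x h}) = ⊤) (q : Q) :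
    ∃ F, ∃ n ∈ RF α F, ∃ g, q = n * i g := by
  have hconj : ∀ g : Γ, ∀ t ∈ Subgroup.closure {q | ∃ x h, q = α x h},
      i g * t * (i g)⁻¹ ∈ Subgroup.closure {q | ∃ x h, q = α x h} := by
    intro g t ht
    induction ht using Subgroup.closure_induction with
    | mem x hx =>
      obtain ⟨y, h, rfl⟩ := hx
      rw [h1]
      exact Subgroup.subset_closure ⟨_, _, rfl⟩
    | one => simp
    | mul x y _ _ hx hy =>
      have : i g * (x * y) * (i g)⁻¹ = (i g * x * (i g)⁻¹) * (i g * y * (i g)⁻¹) := by group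
      rw [this]
      exact mul_mem hx hy
    | inv x _ hx =>
      have : i g * x⁻¹ * (i g)⁻¹ = (i g * x * (i g)⁻¹)⁻¹ := by group
      rw [this]
      exact inv_mem hx
  have hdec : ∃ t ∈ Subgroup.closure {q | ∃ x h, q = α x h}, ∃ g : Γ, q = t * i g := by
    have hq : q ∈ Subgroup.closure (Set.range i ∪ {q | ∃ x h, q = α x h}) := by
      rw [h3]; trivial
    induction hq using Subgroup.closure_induction with
    | mem x hx =>
      rcases hx with ⟨g, rfl⟩ | ⟨y, h, rfl⟩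
      · exact ⟨1, one_mem _, g, by simp⟩
      · exact ⟨α y h, Subgroup.subset_closure ⟨y, h, rfl⟩, 1, by simp⟩
    | one => exact ⟨1, one_mem _, 1, by simp⟩
    | mul x y _ _ hx hy =>
      obtain ⟨t, ht, g, rfl⟩ := hx
      obtain ⟨t', ht', g', rfl⟩ := hy
      refine ⟨t * (i g * t' * (i g)⁻¹), mul_mem ht (hconj g t' ht'), g * g', ?_⟩
      rw [map_mul]
      group
    | inv x _ hx =>
      obtain ⟨t, ht, g, rfl⟩ := hx
      refine ⟨i g⁻¹ * t⁻¹ * (i g⁻¹)⁻¹, hconj g⁻¹ t⁻¹ (inv_mem ht), g⁻¹, ?_⟩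
      rw [map_inv]
      group
  obtain ⟨t, ht, g, rfl⟩ := hdec
  obtain ⟨F, hF⟩ := mem_RF α ht
  exact ⟨F, t, hF, g, rfl⟩

theorem RF_snd (h5 : ∀ x h, π (α x h) = beta x h) {F : Finset X} {m : Q} (hm : m ∈ RF α F)
    (s : S) (y : X) : (π m (s, y)).2 = y := by
  have key : ∀ p : S × X, (π m p).2 = p.2 := by
    induction hm using Subgroup.closure_induction with
    | mem m hm =>
      obtain ⟨x, hx, k, rfl⟩ := hm
      rintro ⟨s, y⟩
      rw [h5, beta_apply]
      split_ifs <;> rfl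
    | one => intro p; rw [map_one]; rfl
    | mul u v _ _ hu hv => intro p; rw [map_mul, Equiv.Perm.mul_apply, hu, hv]
    | inv u _ hu =>
      intro p
      rw [← hu (π u⁻¹ p), map_inv]
      exact congrArg Prod.snd ((π u).apply_symm_apply p)
  exact key (s, y)

theorem RF_inj [FaithfulSMul A S]
    (h2 : ∀ x y, x ≠ y → ∀ h k, Commute (α x h) (α y k))
    (h5 : ∀ x h, π (α x h) = beta x h) (F : Finset X) :
    ∀ n ∈ RF α F, π n = 1 → n = 1 := by
  induction F using Finset.induction_on with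
  | empty =>
    intro n hn _
    have : {q : Q | ∃ x ∈ (∅ : Finset X), ∃ h, q = α x h} = ∅ := by
      ext q
      simp
    unfold RF at hn
    rw [this, Subgroup.closure_empty, Subgroup.mem_bot] at hn
    exact hn
  | insert x F hx ih =>
    intro n hn hπ
    obtain ⟨h, m, hm, rfl⟩ := RF_dec α h2 hx hn
    have hh : h = 1 := by
      apply FaithfulSMul.eq_of_smul_eq_smul (α := S)
      intro s
      have e1 : π (α x h * m) (s, x) = (h • s, x) := by
        rw [map_mul, Equiv.Perm.mul_apply, RF_act α π h5 hx hm, h5, beta_same]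
      rw [hπ, Equiv.Perm.one_apply] at e1
      rw [one_smul]
      exact (Prod.mk.inj e1).1.symm
    subst hh
    rw [map_one, one_mul] at hπ ⊢
    exact ih m hm hπ

theorem pi_inj [FaithfulSMul A S] [FaithfulSMul Γ X] [Nonempty S]
    (h1 : ∀ g x h, i g * α x h * (i g)⁻¹ = α (g • x) h)
    (h2 : ∀ x y, x ≠ y → ∀ h k, Commute (α x h) (α y k))
    (h3 : Subgroup.closure (Set.range i ∪ {q | ∃ x h, q = α x h}) = ⊤)
    (h4 : ∀ g, π (i g) = iota g)
    (h5 : ∀ x h, π (α x h) = beta x h) : Function.Injective π := by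
  rw [injective_iff_map_eq_one]
  intro q hq
  obtain ⟨F, n, hn, g, rfl⟩ := decomp i α h1 h3 q
  obtain ⟨s⟩ := (inferInstance : Nonempty S)
  have hg : g = 1 := by
    apply FaithfulSMul.eq_of_smul_eq_smul (α := X)
    intro x
    have e1 : (π (n * i g) (s, x)).2 = g • x := by
      rw [map_mul, Equiv.Perm.mul_apply, h4, iota_apply]
      exact RF_snd α π h5 hn _ _
    rw [hq, Equiv.Perm.one_apply] at e1
    rw [one_smul]
    exact e1.symm
  subst hg
  rw [map_one, mul_one] at hq ⊢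
  exact RF_inj α π h2 h5 F n hn hq

theorem pairs
    (h4 : ∀ g, π (i g) = iota g)
    (h5 : ∀ x h, π (α x h) = beta x h)
    (EA : Finset (S × S)) (hEA : ∀ x y : S, ∃ g : A, ∃ p ∈ EA, g • p.1 = x ∧ g • p.2 = y)
    (EX : Finset (X × X)) (hEX : ∀ x y : X, ∃ g : Γ, ∃ p ∈ EX, g • p.1 = x ∧ g • p.2 = y) :
    ∃ E : Finset ((S × X) × (S × X)), ∀ u v, ∃ q : Q, ∃ p ∈ E, π q p.1 = u ∧ π q p.2 = v := by
  classical
  let E1 : Finset ((S × X) × (S × X)) := (EA ×ˢ EX).image
    (fun r => ((r.1.1, r.2.1), (r.1.2, r.2.2)))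
  let E2 : Finset ((S × X) × (S × X)) := (EA ×ˢ EA ×ˢ EX).image
    (fun r => ((r.1.1, r.2.2.1), (r.2.1.1, r.2.2.2)))
  refine ⟨E1 ∪ E2, ?_⟩
  rintro ⟨s, x⟩ ⟨t, y⟩
  obtain ⟨g, e, he, rfl, rfl⟩ := hEX x y
  by_cases hxy : e.1 = e.2
  · obtain ⟨a, p, hp, rfl, rfl⟩ := hEA s t
    refine ⟨α (g • e.1) a * i g, ((p.1, e.1), (p.2, e.2)), ?_, ?_, ?_⟩
    · exact Finset.mem_union_left _ (Finset.mem_image.2 ⟨(p, e), Finset.mem_product.2 ⟨hp, he⟩, rfl⟩)
    · rw [map_mul, Equiv.Perm.mul_apply, h4, h5, iota_apply, beta_same]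
    · rw [map_mul, Equiv.Perm.mul_apply, h4, h5, iota_apply, hxy, beta_same]
  · obtain ⟨a, p, hp, rfl, -⟩ := hEA s s
    obtain ⟨b, r, hr, rfl, -⟩ := hEA t t
    have hne : g • e.1 ≠ g • e.2 := fun h => hxy (MulAction.injective g h)
    refine ⟨α (g • e.1) a * (α (g • e.2) b * i g), ((p.1, e.1), (r.1, e.2)), ?_, ?_, ?_⟩
    · exact Finset.mem_union_right _ (Finset.mem_image.2
        ⟨(p, r, e), Finset.mem_product.2 ⟨hp, Finset.mem_product.2 ⟨hr, he⟩⟩, rfl⟩)
    · rw [map_mul, map_mul, Equiv.Perm.mul_apply, Equiv.Perm.mul_apply, h4, h5, h5, iota_apply,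
        beta_ne _ _ _ hne, beta_same]
    · rw [map_mul, map_mul, Equiv.Perm.mul_apply, Equiv.Perm.mul_apply, h4, h5, h5, iota_apply,
        beta_same, beta_ne _ _ _ hne.symm]

theorem stab_FG
    (h1 : ∀ g x h, i g * α x h * (i g)⁻¹ = α (g • x) h)
    (h2 : ∀ x y, x ≠ y → ∀ h k, Commute (α x h) (α y k))
    (h3 : Subgroup.closure (Set.range i ∪ {q | ∃ x h, q = α x h}) = ⊤)
    (h4 : ∀ g, π (i g) = iota g)
    (h5 : ∀ x h, π (α x h) = beta x h)
    (hA : Group.FG A)
    (hstA : ∀ s : S, (MulAction.stabilizer A s).FG)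
    (hstX : ∀ x : X, (MulAction.stabilizer Γ x).FG)
    (EX : Finset (X × X)) (hEX : ∀ x y : X, ∃ g : Γ, ∃ p ∈ EX, g • p.1 = x ∧ g • p.2 = y)
    (u : S × X) : ((MulAction.stabilizer (Equiv.Perm (S × X)) u).comap π).FG := by
  classical
  obtain ⟨s, x⟩ := u
  obtain ⟨TA, hTA⟩ := hA.out
  obtain ⟨TS, hTS⟩ := hstA s
  obtain ⟨TX, hTX⟩ := hstX x
  -- representatives
  have hex : ∀ e : X × X, ∃ y0 : X, (∃ g : Γ, g • e.1 = x) → ∃ g : Γ, g • e.1 = x ∧ g • e.2 = y0 := by
    intro e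
    by_cases h : ∃ g : Γ, g • e.1 = x
    · obtain ⟨g, hg⟩ := h
      exact ⟨g • e.2, fun _ => ⟨g, hg, rfl⟩⟩
    · exact ⟨e.1, fun h' => absurd h' h⟩
  choose y0 hy0 using hex
  have hrep : ∀ y : X, ∃ e ∈ EX, ∃ γ ∈ MulAction.stabilizer Γ x, γ • y0 e = y := by
    intro y
    obtain ⟨g, e, he, hg1, hg2⟩ := hEX x y
    obtain ⟨g', hg1', hg2'⟩ := hy0 e ⟨g, hg1⟩
    refine ⟨e, he, g * g'⁻¹, ?_, ?_⟩
    · rw [MulAction.mem_stabilizer_iff, mul_smul]
      conv_lhs => rw [← hg1']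
      rw [inv_smul_smul, hg1]
    · rw [← hg2', mul_smul, inv_smul_smul, hg2]
  let T : Set Q := (α x '' (TS : Set A)) ∪ (i '' (TX : Set Γ)) ∪
    ⋃ e ∈ EX, {q | y0 e ≠ x ∧ ∃ a ∈ TA, α (y0 e) a = q}
  have hT : T.Finite := by
    refine ((TS.finite_toSet.image _).union (TX.finite_toSet.image _)).union ?_
    apply Set.Finite.biUnion EX.finite_toSet
    intro e _
    apply (TA.finite_toSet.image (fun a => α (y0 e) a)).subset
    rintro q ⟨-, a, ha, rfl⟩
    exact ⟨a, ha, rfl⟩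
  refine (Subgroup.fg_iff _).2 ⟨T, ?_, hT⟩
  have hi : ∀ γ ∈ MulAction.stabilizer Γ x, i γ ∈ Subgroup.closure T := by
    intro γ hγ
    rw [← hTX] at hγ
    have : i γ ∈ (Subgroup.closure (TX : Set Γ)).map i := ⟨γ, hγ, rfl⟩
    rw [MonoidHom.map_closure] at this
    exact Subgroup.closure_mono (fun q hq => Or.inl (Or.inr hq)) this
  have hs : ∀ a ∈ MulAction.stabilizer A s, α x a ∈ Subgroup.closure T := by
    intro a ha
    rw [← hTS] at ha
    have : α x a ∈ (Subgroup.closure (TS : Set A)).map (α x) := ⟨a, ha, rfl⟩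
    rw [MonoidHom.map_closure] at this
    exact Subgroup.closure_mono (fun q hq => Or.inl (Or.inl hq)) this
  have hy : ∀ y, y ≠ x → ∀ a, α y a ∈ Subgroup.closure T := by
    intro y hyx a
    obtain ⟨e, he, γ, hγ, rfl⟩ := hrep y
    have hne : y0 e ≠ x := by
      intro h
      apply hyx
      rw [h]
      exact hγ
    have h6 : α (y0 e) a ∈ Subgroup.closure T := by
      have ha : a ∈ Subgroup.closure (TA : Set A) := by rw [hTA]; trivial
      have : α (y0 e) a ∈ (Subgroup.closure (TA : Set A)).map (α (y0 e)) := ⟨a, ha, rfl⟩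
      rw [MonoidHom.map_closure] at this
      refine Subgroup.closure_mono ?_ this
      rintro q ⟨b, hb, rfl⟩
      exact Or.inr (Set.mem_iUnion₂.2 ⟨e, he, hne, b, hb, rfl⟩)
    rw [← h1]
    exact mul_mem (mul_mem (hi γ hγ) h6) (inv_mem (hi γ hγ))
  apply le_antisymm
  · rw [Subgroup.closure_le]
    rintro q ((⟨a, ha, rfl⟩ | ⟨γ, hγ, rfl⟩) | hq)
    · have ha' : a ∈ MulAction.stabilizer A s := by rw [← hTS]; exact Subgroup.subset_closure ha
      rw [SetLike.mem_coe, Subgroup.mem_comap, MulAction.mem_stabilizer_iff, Equiv.Perm.smul_def,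
        h5, beta_same, MulAction.mem_stabilizer_iff.1 ha']
    · have hγ' : γ ∈ MulAction.stabilizer Γ x := by rw [← hTX]; exact Subgroup.subset_closure hγ
      rw [SetLike.mem_coe, Subgroup.mem_comap, MulAction.mem_stabilizer_iff, Equiv.Perm.smul_def,
        h4, iota_apply, MulAction.mem_stabilizer_iff.1 hγ']
    · obtain ⟨e, he, hne, a, ha, rfl⟩ := Set.mem_iUnion₂.1 hq
      rw [SetLike.mem_coe, Subgroup.mem_comap, MulAction.mem_stabilizer_iff, Equiv.Perm.smul_def,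
        h5, beta_ne _ _ _ hne.symm]
  · intro q hq
    rw [Subgroup.mem_comap, MulAction.mem_stabilizer_iff, Equiv.Perm.smul_def] at hq
    obtain ⟨F, n, hn, g, rfl⟩ := decomp i α h1 h3 q
    have hg : g • x = x := by
      have e1 : (π (n * i g) (s, x)).2 = g • x := by
        rw [map_mul, Equiv.Perm.mul_apply, h4, iota_apply]
        exact RF_snd α π h5 hn _ _
      rw [hq] at e1
      exact e1.symm
    refine mul_mem ?_ (hi g hg)
    have hn' : n ∈ RF α (insert x (F.erase x)) := by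
      refine RF_mono α ?_ hn
      intro z hz
      by_cases hzx : z = x
      · simp [hzx]
      · simp [hzx, hz]
    obtain ⟨h, m, hm, rfl⟩ := RF_dec α h2 (Finset.notMem_erase x F) hn'
    refine mul_mem (hs h ?_) ?_
    · rw [MulAction.mem_stabilizer_iff]
      rw [map_mul, map_mul, Equiv.Perm.mul_apply, Equiv.Perm.mul_apply, h4, iota_apply, hg,
        RF_act α π h5 (Finset.notMem_erase x F) hm, h5, beta_same] at hq
      exact (Prod.mk.inj hq).1
    · have : RF α (F.erase x) ≤ Subgroup.closure T := by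
        unfold RF
        rw [Subgroup.closure_le]
        rintro q ⟨y, hyF, a, rfl⟩
        exact hy y (Finset.ne_of_mem_erase hyF) a
      exact this hm

end

end Pool.Agent.H851.Oligo
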