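import Mathlib
import Pool.Agent.H851.Oligo.WreathA
import Pool.Agent.Results.MP_24fec0_al.TypeAOligomorphic

set_option autoImplicit false

namespace Pool.Agent.H851.Oligo

open Pool.Agent.TH74.Oligo
open Pool.Agent.Results.MP_24fec0_al.TypeAOligomorphic

/-- a finitely presented group with a faithful action with finitely many orbits on pairs and
finitely generated point stabilizers -/
def TypeA (Q T : Type) [Group Q] (ρ : Q →* Equiv.Perm T) : Prop :=
  Group.IsFinitelyPresented Q ∧ Function.Injective ρ ∧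
  (∃ E : Finset (T × T), ∀ u v, ∃ q : Q, ∃ p ∈ E, ρ q p.1 = u ∧ ρ q p.2 = v) ∧
  ∀ t : T, ((MulAction.stabilizer (Equiv.Perm T) t).comap ρ).FG

theorem embedsTypeA_of {H : Type*} [Group H] {Q T : Type} [Group Q] [Infinite T]
    (φ : H →* Q) (hφ : Function.Injective φ) (ρ : Q →* Equiv.Perm T) (h : TypeA Q T ρ) :
    EmbedsTypeA H := by
  obtain ⟨hfp, hρ, ⟨E, hE⟩, hst⟩ := h
  obtain ⟨n, r, hr, ⟨θ⟩⟩ := Group.IsFinitelyPresented.exists_mulEquiv_presentedGroup (G := Q)
  obtain ⟨r', rfl⟩ := hr.exists_finset_coe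
  refine ⟨n, r', θ.toMonoidHom.comp φ, T, inferInstance, ρ.comp θ.symm.toMonoidHom,
    θ.injective.comp hφ, hρ.comp θ.symm.injective, ?_, ?_⟩
  · set f : T × T → Set (T × T) := fun x => {y : T × T | ∃ h : PresentedGroup
      (r' : Set (FreeGroup (Fin n))), y = ((ρ.comp θ.symm.toMonoidHom) h x.1,
        (ρ.comp θ.symm.toMonoidHom) h x.2)} with hf
    apply (E.finite_toSet.image f).subset
    rintro _ ⟨⟨u, v⟩, rfl⟩
    obtain ⟨q, p, hp, rfl, rfl⟩ := hE u v
    refine ⟨p, hp, ?_⟩
    ext y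
    constructor
    · rintro ⟨h, rfl⟩
      refine ⟨h * (θ q)⁻¹, ?_⟩
      simp
    · rintro ⟨h, rfl⟩
      refine ⟨h * θ q, ?_⟩
      simp
  · intro s
    have : (MulAction.stabilizer (Equiv.Perm T) s).comap (ρ.comp θ.symm.toMonoidHom) =
        ((MulAction.stabilizer (Equiv.Perm T) s).comap ρ).map θ.toMonoidHom := by
      ext h
      constructor
      · intro hh
        exact ⟨θ.symm h, hh, by simp⟩
      · rintro ⟨q, hq, rfl⟩
        simpa using hq
    rw [this]
    classical
    obtain ⟨B, hB⟩ := hst s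
    refine ⟨B.image θ, ?_⟩
    rw [← hB, MonoidHom.map_closure, Finset.coe_image]
    rfl

theorem typeA_of_embeds {H : Type*} [Group H] (h : EmbedsTypeA H) :
    ∃ (Q T : Type) (_ : Group Q) (_ : Infinite T) (ρ : Q →* Equiv.Perm T) (φ : H →* Q),
      TypeA Q T ρ ∧ Function.Injective φ := by
  classical
  obtain ⟨m, rels, φ, S, hS, ρ, hφ, hρ, hpairs, hst⟩ := h
  refine ⟨_, S, inferInstance, hS, ρ, φ, ⟨inferInstance, hρ, ?_, hst⟩, hφ⟩
  let f : S × S → Set (S × S) := fun x =>
    {y : S × S | ∃ h : PresentedGroup (rels : Set (FreeGroup (Fin m))), y = (ρ h x.1, ρ h x.2)}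
  have hf : (Set.range f).Finite := hpairs
  have hc : ∀ A : Set.range f, ∃ x, f x = A := fun A => A.2
  choose c hc using hc
  have : Finite (Set.range f) := hf
  refine ⟨(Set.finite_range c).toFinset, fun u v => ?_⟩
  have h1 := hc ⟨f (u, v), (u, v), rfl⟩
  have h2 : (u, v) ∈ f (u, v) := ⟨1, by simp⟩
  have h3 : (u, v) ∈ f (c ⟨f (u, v), (u, v), rfl⟩) := by rw [h1]; exact h2
  obtain ⟨q, hq⟩ := h3
  rw [Prod.mk.injEq] at hq
  exact ⟨q, _, by simp, hq.1.symm, hq.2.symm⟩

/-- the product action -/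
def prodAct {Q T G S : Type} [Group Q] [Group G] (ρ : Q →* Equiv.Perm T) (σ : G →* Equiv.Perm S) :
    Q × G →* Equiv.Perm (T × S) where
  toFun g := Equiv.prodCongr (ρ g.1) (σ g.2)
  map_one' := by ext x <;> simp
  map_mul' g h := by ext x <;> simp

theorem prodAct_apply {Q T G S : Type} [Group Q] [Group G] (ρ : Q →* Equiv.Perm T)
    (σ : G →* Equiv.Perm S) (g : Q × G) (x : T × S) :
    prodAct ρ σ g x = (ρ g.1 x.1, σ g.2 x.2) := rfl

theorem typeA_prod {Q T G S : Type} [Group Q] [Group G] [Nonempty T] [Nonempty S]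
    {ρ : Q →* Equiv.Perm T} {σ : G →* Equiv.Perm S} (h : TypeA Q T ρ) (h' : TypeA G S σ) :
    TypeA (Q × G) (T × S) (prodAct ρ σ) := by
  classical
  obtain ⟨hfp, hρ, ⟨E, hE⟩, hst⟩ := h
  obtain ⟨hfp', hσ, ⟨E', hE'⟩, hst'⟩ := h'
  obtain ⟨t0⟩ := (inferInstance : Nonempty T)
  obtain ⟨s0⟩ := (inferInstance : Nonempty S)
  refine ⟨?_, ?_, ?_, ?_⟩
  · have hQ : Group.FG Q := by
      obtain ⟨n, ψ, hψ, -⟩ := hfp
      exact Group.fg_of_surjective hψ
    have hG : Group.FG G := by
      obtain ⟨n, ψ, hψ, -⟩ := hfp'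
      exact Group.fg_of_surjective hψ
    obtain ⟨B, hB⟩ := hQ.out
    obtain ⟨C, hC⟩ := hG.out
    exact fp_prod Q G B B.finite_toSet hB C C.finite_toSet hC
  · rw [injective_iff_map_eq_one]
    rintro ⟨q, g⟩ hqg
    have h1 : ∀ t s, (ρ q t, σ g s) = (t, s) := by
      intro t s
      have := congrArg (fun f : Equiv.Perm (T × S) => f (t, s)) hqg
      exact this
    have h2 : q = 1 := by
      apply hρ
      rw [map_one]
      ext t
      exact (Prod.mk.inj (h1 t s0)).1
    have h3 : g = 1 := by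
      apply hσ
      rw [map_one]
      ext s
      exact (Prod.mk.inj (h1 t0 s)).2
    rw [h2, h3]
    rfl
  · refine ⟨(E ×ˢ E').image (fun q => ((q.1.1, q.2.1), (q.1.2, q.2.2))), ?_⟩
    rintro ⟨u1, u2⟩ ⟨v1, v2⟩
    obtain ⟨q, p, hp, rfl, rfl⟩ := hE u1 v1
    obtain ⟨g, r, hr, rfl, rfl⟩ := hE' u2 v2
    exact ⟨(q, g), _, Finset.mem_image.2 ⟨(p, r), Finset.mem_product.2 ⟨hp, hr⟩, rfl⟩, rfl, rfl⟩
  · intro s
    have : (MulAction.stabilizer (Equiv.Perm (T × S)) s).comap (prodAct ρ σ) =
        ((MulAction.stabilizer (Equiv.Perm T) s.1).comap ρ).prod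
          ((MulAction.stabilizer (Equiv.Perm S) s.2).comap σ) := by
      ext g
      rw [Subgroup.mem_prod, Subgroup.mem_comap, Subgroup.mem_comap, Subgroup.mem_comap,
        MulAction.mem_stabilizer_iff, MulAction.mem_stabilizer_iff,
        MulAction.mem_stabilizer_iff, Equiv.Perm.smul_def, Equiv.Perm.smul_def,
        Equiv.Perm.smul_def, prodAct_apply, Prod.ext_iff]
    rw [this]
    exact (hst s.1).prod (hst' s.2)

/-- the permutation of `S × X` given by a family of permutations of `S` -/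
def diag {S X : Type} : (X → Equiv.Perm S) →* Equiv.Perm (S × X) where
  toFun f :=
    { toFun := fun p => (f p.2 p.1, p.2)
      invFun := fun p => ((f p.2).symm p.1, p.2)
      left_inv := by rintro ⟨s, x⟩; simp
      right_inv := by rintro ⟨s, x⟩; simp }
  map_one' := by ext1 ⟨s, x⟩; rfl
  map_mul' f g := by ext1 ⟨s, x⟩; rfl

theorem diag_apply {S X : Type} (f : X → Equiv.Perm S) (s : S) (x : X) :
    diag f (s, x) = (f x s, x) := rfl

/-- the permutation of `S × X` given by a permutation of `X` -/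
def sec (S : Type) {X : Type} : Equiv.Perm X →* Equiv.Perm (S × X) where
  toFun g := Equiv.prodCongr (Equiv.refl S) g
  map_one' := by ext1 ⟨s, x⟩; rfl
  map_mul' f g := by ext1 ⟨s, x⟩; rfl

theorem sec_apply {S X : Type} (g : Equiv.Perm X) (s : S) (x : X) :
    sec S g (s, x) = (s, g x) := rfl

/-- The permutational wreath product of two groups of type (A) is of type (A). -/
theorem typeA_wreath {A S Γ X : Type} [Group A] [Group Γ] [Nonempty S]
    {ρ : A →* Equiv.Perm S} {σ : Γ →* Equiv.Perm X} (h : TypeA A S ρ) (h' : TypeA Γ X σ) :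
    ∃ (Q : Type) (_ : Group Q) (π : Q →* Equiv.Perm (S × X)), TypeA Q (S × X) π ∧
      (∀ g, sec S (σ g) ∈ π.range) ∧
      (∀ f : X → A, {x | f x ≠ 1}.Finite → diag (fun x => ρ (f x)) ∈ π.range) := by
  classical
  obtain ⟨hfp, hρ, ⟨EA, hEA⟩, hst⟩ := h
  obtain ⟨hfp', hσ, ⟨EX, hEX⟩, hst'⟩ := h'
  let _ : MulAction A S := MulAction.compHom S ρ
  let _ : MulAction Γ X := MulAction.compHom X σ
  have haS : ∀ (a : A) (s : S), a • s = ρ a s := fun _ _ => rfl
  have haX : ∀ (g : Γ) (x : X), g • x = σ g x := fun _ _ => rfl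
  have hstA : ∀ s : S, (MulAction.stabilizer A s).FG := by
    intro s
    exact hst s
  have hstX : ∀ x : X, (MulAction.stabilizer Γ x).FG := by
    intro s
    exact hst' s
  have : FaithfulSMul A S := ⟨fun {a b} hab => hρ (Equiv.ext hab)⟩
  have : FaithfulSMul Γ X := ⟨fun {a b} hab => hσ (Equiv.ext hab)⟩
  obtain ⟨Q, _, i, α, π, hQ, h1, h2, h3, h4, h5⟩ :=
    wreathFP (A := A) (Γ := Γ) (S := S) (X := X) EX hEX hstX
  have hAfg : Group.FG A := by
    obtain ⟨n, ψ, hψ, -⟩ := hfp
    exact Group.fg_of_surjective hψ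
  refine ⟨Q, inferInstance, π, ⟨hQ, pi_inj i α π h1 h2 h3 h4 h5,
    pairs i α π h4 h5 EA hEA EX hEX,
    stab_FG i α π h1 h2 h3 h4 h5 hAfg hstA hstX EX hEX⟩, ?_, ?_⟩
  · intro g
    refine ⟨i g, ?_⟩
    rw [h4]
    apply Equiv.ext
    rintro ⟨s, x⟩
    rfl
  · have key : ∀ F : Finset X, ∀ f : X → A, (∀ x, x ∉ F → f x = 1) →
        diag (fun x => ρ (f x)) ∈ π.range := by
      intro F
      induction F using Finset.induction_on with
      | empty =>
        intro f hf
        have : (fun x => ρ (f x)) = 1 := by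
          funext x
          rw [hf x (by simp), map_one]
          rfl
        rw [this, map_one]
        exact one_mem _
      | insert x F hx ih =>
        intro f hf
        have h6 : diag (fun y => ρ (f y)) =
            beta x (f x) * diag (fun y => ρ (Function.update f x 1 y)) := by
          apply Equiv.ext
          rintro ⟨s, y⟩
          rw [Equiv.Perm.mul_apply, diag_apply, diag_apply]
          by_cases hy : y = x
          · subst hy
            rw [Function.update_self, map_one, Equiv.Perm.one_apply, beta_same, haS]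
          · rw [Function.update_of_ne hy, beta_ne _ _ _ hy]
        rw [h6]
        refine mul_mem ⟨α x (f x), h5 _ _⟩ (ih _ ?_)
        intro y hy
        by_cases hyx : y = x
        · subst hyx
          rw [Function.update_self]
        · rw [Function.update_of_ne hyx]
          exact hf y (by simp [hyx, hy])
    intro f hf
    exact key hf.toFinset f (fun x hx => by
      by_contra hne
      exact hx (by simpa using hne))

end Pool.Agent.H851.Oligo
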